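import Mathlib
import Pool.Agent.Lib.P78a38c.Defs
import Pool.Agent.Lib.P78a38c.Exists
import Pool.Agent.Lib.P78a38c.Disproof

set_option autoImplicit false

namespace Pool.Agent.Results.MP_78a38c_al.Disproof

open MvPolynomial Pool.Agent.Lib.P78a38c

/-- The weak convexity inequality `t_n ≤ t_i + t_{n-i}` fails for `n = 6` and `i = 3`, over every
infinite field `K`: there is a proper homogeneous ideal `I` of `S = K[x₁, …, x₆]` such that `S/I`
has a minimal graded free resolution `F` and every such resolution has `t₃ ≤ 10` and `t₆ ≥ 21`,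
hence `t₆ > t₃ + t₃`. -/
theorem result (K : Type*) [Field K] [Infinite K] :
    ∃ I : Ideal (MvPolynomial (Fin 6) K),
      (∀ p ∈ I, ∀ j, homogeneousComponent j p ∈ I) ∧ I ≠ ⊤ ∧
      Nonempty (MinimalResolution K 6 I) ∧
      ∀ F : MinimalResolution K 6 I, F.t 3 ≤ 10 ∧ 21 ≤ F.t 6 ∧ F.t 3 + F.t (6 - 3) < F.t 6 := by
  obtain ⟨I, h1, h2, h3⟩ := counterexample K
  refine ⟨I, h1, h2, exists_minimalResolution I h1 h2, fun F => ?_⟩
  obtain ⟨h4, h5⟩ := h3 F
  refine ⟨h4, h5, ?_⟩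
  change F.t 3 + F.t 3 < F.t 6
  have h6 : F.t 3 + F.t 3 ≤ 10 + 10 := add_le_add h4 h4
  have h7 : (10 + 10 : WithBot ℕ) < 21 := by
    exact_mod_cast (by norm_num : (10 + 10 : ℕ) < 21)
  exact lt_of_le_of_lt h6 (lt_of_lt_of_le h7 h5)

end Pool.Agent.Results.MP_78a38c_al.Disproof
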