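import Mathlib
import Pool.Agent.Lib.P78a38c.Main
import Pool.Agent.Lib.P78a38c.Exists

set_option autoImplicit false

namespace Pool.Agent.Results.MP_78a38c_al.GradeRange

open MvPolynomial Pool.Agent.Lib.P78a38c

/-- Let `I` be an ideal of `S = K[x₁, …, xₙ]` and `F` a minimal graded free resolution of `S/I`.
If `I` contains a regular sequence of length `min i (n - i)` (equivalently, the codimension of
`I` is at least `min i (n - i)`) then `t_n ≤ t_i + t_{n-i}`. Minimal graded free resolutions exist
for all proper homogeneous ideals (`exists_minimalResolution`). -/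
theorem result {K : Type*} [Field K] {n : ℕ} {I : Ideal (MvPolynomial (Fin n) K)}
    (F : MinimalResolution K n I) (i : ℕ) (hi : i ≤ n)
    (h : ∃ rs : List (MvPolynomial (Fin n) K), rs.length = min i (n - i) ∧ (∀ r ∈ rs, r ∈ I) ∧
      RingTheory.Sequence.IsWeaklyRegular (MvPolynomial (Fin n) K) rs) :
    F.t n ≤ F.t i + F.t (n - i) := by
  obtain ⟨rs, hlen, hmem, hreg⟩ := h
  rcases le_total i (n - i) with hle | hle
  · rw [min_eq_left hle] at hlen
    exact F.grade_aux (n - i) i (by omega) rs hlen hmem hreg
  · rw [min_eq_right hle] at hlen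
    rw [add_comm (F.t i)]
    exact F.grade_aux i (n - i) (by omega) rs hlen hmem hreg

end Pool.Agent.Results.MP_78a38c_al.GradeRange
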