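import Mathlib
import Pool.Agent.Lib.P78a38c.Main
import Pool.Agent.Lib.P78a38c.Exists

set_option autoImplicit false

namespace Pool.Agent.Results.MP_78a38c_al.IndexTwo

open MvPolynomial Pool.Agent.Lib.P78a38c

/-- Let `I` be an ideal of `S = K[x₁, …, xₙ]` and `F` a minimal graded free resolution of `S/I`.
If `i ≤ 2` or `n - i ≤ 2` then `t_n ≤ t_i + t_{n-i}`; in particular the inequality holds for all
`i` if `n ≤ 5`. There is no condition on the dimension of `S/I`. Minimal graded free resolutions
exist for all proper homogeneous ideals (`exists_minimalResolution`). -/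
theorem result {K : Type*} [Field K] {n : ℕ} {I : Ideal (MvPolynomial (Fin n) K)}
    (F : MinimalResolution K n I) (i : ℕ) (hi : i ≤ n) (h : i ≤ 2 ∨ n - i ≤ 2) :
    F.t n ≤ F.t i + F.t (n - i) := by
  rcases h with h | h
  · exact F.small (n - i) i (by omega) h
  · rw [add_comm (F.t i)]
    exact F.small i (n - i) (by omega) h

end Pool.Agent.Results.MP_78a38c_al.IndexTwo
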